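import Pool.Agent.H555Z.Tr.Main

open MeasureTheory

/-- For `1 < p < 2` there are `f` in `L_p(ℝ)` and a basic sequence of translates of `f` whose closed
linear span contains a closed subspace isomorphic to `L_p[0,1]`. -/
theorem Pool.Agent.Results.MP_89175a_an.ABasicTranslates.result
    (p : ENNReal) [Fact (1 ≤ p)] (h1 : 1 < p) (h2 : p < 2) :
    ∃ (f : Lp ℝ p (volume : Measure ℝ)) (lam : ℕ → ℝ) (g : ℕ → Lp ℝ p (volume : Measure ℝ)),
      (∀ i, (g i : ℝ → ℝ) =ᵐ[volume] fun x => f (x - lam i)) ∧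
      (∀ y ∈ (Submodule.span ℝ (Set.range g)).topologicalClosure, ∃! a : ℕ → ℝ,
        Filter.Tendsto (fun n => ∑ i ∈ Finset.range n, a i • g i) Filter.atTop (nhds y)) ∧
      ∃ Z : Submodule ℝ (Lp ℝ p (volume : Measure ℝ)),
        IsClosed (Z : Set (Lp ℝ p (volume : Measure ℝ))) ∧
        Z ≤ (Submodule.span ℝ (Set.range g)).topologicalClosure ∧
        Nonempty (Lp ℝ p (volume.restrict (Set.Icc (0 : ℝ) 1)) ≃L[ℝ] Z) :=
  H555Z.Tr.final p h1 h2.le
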